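import Pool.Agent.Lib.MP_a2eab4_al.ReLim

set_option autoImplicit false

namespace Pool.Agent.Lib.MP_a2eab4_al.Old.Product

/-- There is a group with two right `n`-Engel elements whose product is not a right Engel
element. -/
theorem result : ∃ (G : Type) (_ : Group G) (a b g : G) (n : ℕ),
    (∀ y : G, (fun x : G => x⁻¹ * y⁻¹ * x * y)^[n] a = 1) ∧
    (∀ y : G, (fun x : G => x⁻¹ * y⁻¹ * x * y)^[n] b = 1) ∧
    ∀ m : ℕ, (fun x : G => x⁻¹ * g⁻¹ * x * g)^[m] (a * b) ≠ 1 := by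
  obtain ⟨G, _, a, b, n, ha, hb, g, h⟩ := Pool.Agent.Lib.MP_a2eab4_al.Re.engel_example
  exact ⟨G, inferInstance, a, b, g, n, ha, hb, h⟩

end Pool.Agent.Lib.MP_a2eab4_al.Old.Product
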